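import Pool.Agent.R546.IT.Main

/-!
# The number of isomorphism types does not bound the complexity of the isomorphism test

`K` is the class of all finite sets without structure, `J` the class of all finite sets with a unary
relation that holds for at most one element.  There is one isomorphism type of each size in `K`, and
there are at most two in `J`.  A Turing machine can read its complete input (two numbers in binary)
and decide isomorphism for `K` in `O(log n)` steps, but every isomorphism test for `J` takes at
least `n` steps.
-/

set_option autoImplicit false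

namespace Pool.Agent.Results.MP_28ce77_lc.FewTypesSlowTest

open Pool.Agent.R546.IT

/-- The assertion of the question: if `f_J ≤ q(f_K)` for a polynomial `q`, then there is a
polynomial `p` such that for every isomorphism testing algorithm `α` for `K` there is an isomorphism
testing algorithm `β` for `J` with `m_J(β, n) ≤ p(m_K(α, n))` for all sufficiently large `n`. -/
def Assertion : Prop :=
  ∀ (J K : Cls) (q : Polynomial ℝ), (∀ n : ℕ, (J.types n : ℝ) ≤ q.eval (K.types n : ℝ)) →
    ∃ p : Polynomial ℝ, ∀ (k : ℕ) (α : TM k), α.Tests K →
      ∃ (l : ℕ) (β : TM l), β.Tests J ∧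
        ∀ᶠ n : ℕ in Filter.atTop, (β.time J n : ℝ) ≤ p.eval (α.time K n : ℝ)

/-- The assertion is false. More precisely, there are first-order definable classes `J` and `K` with
`f_J(n) ≤ 2 f_K(n)` for all `n`, and an isomorphism test `α` for `K` which reads its complete input
(it takes as many steps as there are input symbols), such that every isomorphism test `β` for `J`
and every polynomial `p` satisfy `m_J(β, n) ≥ n > p(m_K(α, n))` for all sufficiently large `n`. -/
theorem result : ¬ Assertion ∧
    ∃ J K : Cls, (∀ n : ℕ, J.types n ≤ 2 * K.types n) ∧ ∃ α : TM 0, α.Tests K ∧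
      (∀ (n : ℕ) (A B : Str K.σ n) (t : ℕ) (c : Cfg α), α.HaltsAt (encPair A B) t c →
        t = (encPair A B).length) ∧
      ∀ (l : ℕ) (β : TM l), β.Tests J → (∀ n : ℕ, n ≤ β.time J n) ∧
        ∀ p : Polynomial ℝ, ∀ᶠ n : ℕ in Filter.atTop, p.eval (α.time K n : ℝ) < n := by
  have htypes : ∀ n : ℕ, clsJ.types n ≤ 2 * clsK.types n := fun n => by
    have h1 := typesJ n
    have h2 := typesK n
    omega
  refine ⟨fun h => ?_, clsJ, clsK, htypes, alpha, alpha_tests,
    fun n A B t c h => halts_unique h (alpha_halts _), fun l β hβ => ⟨fun n => ?_, fun p => ?_⟩⟩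
  · obtain ⟨p, hp⟩ := h clsJ clsK (Polynomial.C 2 * Polynomial.X) (fun n => by
      simp only [Polynomial.eval_mul, Polynomial.eval_C, Polynomial.eval_X]
      exact_mod_cast htypes n)
    obtain ⟨l, β, hβ, h1⟩ := hp 0 alpha alpha_tests
    obtain ⟨n, h2, h3⟩ := (h1.and (gap β hβ p)).exists
    exact absurd h2 (not_le.2 h3)
  · rcases Nat.eq_zero_or_pos n with rfl | hn
    · exact Nat.zero_le _
    · exact lower β hβ hn
  · filter_upwards [growth p] with n h1
    rw [time_alpha]
    exact h1

end Pool.Agent.Results.MP_28ce77_lc.FewTypesSlowTest
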